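import Pool.Agent.Y7.AN.Stm

/-!
Gronwall's inequality with dissipation, separate constants (helper779; adapted from helper7's
`Pool.Agent.Y7.WD.wgron`).
-/

set_option autoImplicit false
set_option linter.unusedVariables false

open MeasureTheory Set Metric Filter Topology
open scoped ContDiff ENNReal

namespace Pool.Agent.Y779.AN

open Pool.Agent.Y7.WD

section
variable {H : Set ℝ}

/-- Gronwall's inequality with dissipation. -/
lemma wgron2 (hHo : IsOpen H) (hfull : volume (Ioo (-1 : ℝ) 0 \ H) = 0) (hsub : H ⊆ Ioo (-1) 0)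
    {a a' KA KY KR : ℝ} {Y Z A R : ℝ → ℝ} (ha : -1 ≤ a) (haa : a < a') (ha' : a' < 0)
    (nY : ∀ t ∈ H, 0 ≤ Y t) (nZ : ∀ t ∈ H, 0 ≤ Z t) (nA : ∀ t ∈ H, a < t → 0 ≤ A t)
    (nR : ∀ t ∈ H, a < t → 0 ≤ R t)
    (iY : IntegrableOn Y (Ioo a 0)) (iA : IntegrableOn A (Ioo a 0)) (iR : IntegrableOn R (Ioo a 0))
    (iAY : IntegrableOn (fun t => A t * Y t) (Ioo a 0))
    (hE : ∀ s ∈ H, ∀ t ∈ H, a < s → s ≤ t → IntegrableOn Z (Ioo s t) ∧
      Y t + ∫ τ in Ioo s t, Z τ ≤ Y s + ∫ τ in Ioo s t, (A τ * Y τ + R τ))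
    (hKA : ∫ t in Ioo a 0, A t ≤ KA) (hKY : ∫ t in Ioo a 0, Y t ≤ KY)
    (hKR : ∫ t in Ioo a 0, R t ≤ KR)
    (hKA0 : 0 ≤ KA) (hKY0 : 0 ≤ KY) (hKR0 : 0 ≤ KR) :
    (∀ t ∈ H, a' < t → Y t ≤ Real.exp KA * (KY / (a' - a) + KR)) ∧
      IntegrableOn Z (Ioo a' 0) ∧
      ∫ t in Ioo a' 0, Z t ≤ Real.exp KA * (KY / (a' - a) + KR) := by
  have had : 0 < a' - a := by linarith
  have had1 : a' - a ≤ 1 := by linarith
  -- a good time
  obtain ⟨s, hsH, has, hsa, hYs⟩ : ∃ s ∈ H, a < s ∧ s < a' ∧ Y s ≤ KY / (a' - a) := by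
    have hB : Ioo a a' ⊆ Ioo (-1 : ℝ) 0 := fun x hx => ⟨ha.trans_lt hx.1, hx.2.trans ha'⟩
    have hB0 : Ioo a a' ⊆ Ioo a 0 := Ioo_subset_Ioo_right ha'.le
    have hne : (volume : Measure ℝ).restrict (Ioo a a') ≠ 0 := by
      rw [Ne, Measure.restrict_eq_zero, Real.volume_Ioo, ENNReal.ofReal_eq_zero, not_le]
      exact had
    have hN : (volume : Measure ℝ).restrict (Ioo a a') (Ioo a a' ∩ H)ᶜ = 0 := by
      have := ae_mem hfull hB measurableSet_Ioo
      rw [ae_iff] at this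
      exact this
    obtain ⟨s, h1, h2⟩ := exists_notMem_null_le_average hne (iY.mono_set hB0) hN
    rw [notMem_compl_iff] at h1
    refine ⟨s, h1.2, h1.1.1, h1.1.2, h2.trans ?_⟩
    rw [setAverage_eq, smul_eq_mul]
    have h3 : (volume : Measure ℝ).real (Ioo a a') = a' - a := by
      rw [measureReal_def, Real.volume_Ioo, ENNReal.toReal_ofReal had.le]
    rw [h3, inv_mul_eq_div]
    apply div_le_div_of_nonneg_right _ had.le
    have h4 : ∫ x in Ioo a a', Y x ≤ ∫ x in Ioo a 0, Y x := by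
      apply setIntegral_mono_set iY
      · filter_upwards [ae_mem hfull (A := Ioo a 0)
          (fun x hx => ⟨ha.trans_lt hx.1, hx.2⟩) measurableSet_Ioo] with x hx
        exact nY x hx.2
      · exact hB0.eventuallyLE
    linarith
  have hRK : ∀ t ∈ H, s ≤ t → ∫ τ in Ioo s t, R τ ≤ KR := by
    intro t ht hst
    have h4 : ∫ x in Ioo s t, R x ≤ ∫ x in Ioo a 0, R x := by
      apply setIntegral_mono_set iR
      · filter_upwards [ae_mem hfull (A := Ioo a 0)
          (fun x hx => ⟨ha.trans_lt hx.1, hx.2⟩) measurableSet_Ioo] with x hx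
        exact nR x hx.2 hx.1.1
      · exact (Ioo_subset_Ioo has.le (hsub ht).2.le).eventuallyLE
    linarith
  have hAK : ∀ t ∈ H, s ≤ t → ∫ τ in Ioo s t, A τ ≤ KA := by
    intro t ht hst
    refine le_trans ?_ hKA
    apply setIntegral_mono_set iA
    · filter_upwards [ae_mem hfull (A := Ioo a 0)
        (fun x hx => ⟨ha.trans_lt hx.1, hx.2⟩) measurableSet_Ioo] with x hx
      exact nA x hx.2 hx.1.1
    · exact (Ioo_subset_Ioo has.le (hsub ht).2.le).eventuallyLE
  have key : ∀ t ∈ H, s ≤ t → Y s + ∫ τ in Ioo s t, (A τ * Y τ + R τ)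
      ≤ Real.exp KA * (KY / (a' - a) + KR) := by
    intro t ht hst
    have hsub2 : Ioo s t ⊆ Ioo a 0 := Ioo_subset_Ioo has.le (hsub ht).2.le
    have h1 := gr_step hHo hfull hsub hsH ht hst (nY s hsH) nY
      (fun τ h1 h2 => nA τ h1 (has.trans h2)) (fun τ h1 h2 => nR τ h1 (has.trans h2))
      (iA.mono_set hsub2) (iR.mono_set hsub2) (iAY.mono_set hsub2) (fun τ h1 h2 h3 => by
        obtain ⟨g1, g2⟩ := hE s hsH τ h1 has h2.le
        have g3 : 0 ≤ ∫ σ in Ioo s τ, Z σ := by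
          apply integral_nonneg_of_ae
          filter_upwards [ae_mem hfull (A := Ioo s τ)
            (fun x hx => ⟨(hsub hsH).1.trans hx.1, hx.2.trans (hsub h1).2⟩)
            measurableSet_Ioo] with x hx
          exact nZ x hx.2
        linarith)
    refine h1.trans ?_
    have h2 : Real.exp (∫ σ in Ioo s t, A σ) ≤ Real.exp KA := Real.exp_le_exp.2 (hAK t ht hst)
    have h3 : Y s + ∫ σ in Ioo s t, R σ ≤ KY / (a' - a) + KR := by
      have := hRK t ht hst
      linarith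
    have h4 : 0 ≤ Y s + ∫ σ in Ioo s t, R σ := by
      have := nY s hsH
      have g3 : 0 ≤ ∫ σ in Ioo s t, R σ := by
        apply integral_nonneg_of_ae
        filter_upwards [ae_mem hfull (A := Ioo s t)
          (fun x hx => ⟨(hsub hsH).1.trans hx.1, hx.2.trans (hsub ht).2⟩)
          measurableSet_Ioo] with x hx
        exact nR x hx.2 (has.trans hx.1.1)
      linarith
    exact mul_le_mul h2 h3 h4 (Real.exp_pos _).le
  have hZt : ∀ t ∈ H, a' < t → IntegrableOn Z (Ioo a' t) ∧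
      ∫ τ in Ioo a' t, Z τ ≤ Real.exp KA * (KY / (a' - a) + KR) := by
    intro t ht hat
    obtain ⟨g1, g2⟩ := hE s hsH t ht has (hsa.trans hat).le
    have hss : Ioo a' t ⊆ Ioo s t := Ioo_subset_Ioo_left hsa.le
    refine ⟨g1.mono_set hss, ?_⟩
    have g3 : ∫ τ in Ioo a' t, Z τ ≤ ∫ τ in Ioo s t, Z τ := by
      apply setIntegral_mono_set g1
      · filter_upwards [ae_mem hfull (A := Ioo s t)
          (fun x hx => ⟨(hsub hsH).1.trans hx.1, hx.2.trans (hsub ht).2⟩)
          measurableSet_Ioo] with x hx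
        exact nZ x hx.2
      · exact hss.eventuallyLE
    have g4 := key t ht (hsa.trans hat).le
    have g5 := nY t ht
    linarith
  refine ⟨fun t ht hat => ?_, ?_⟩
  · obtain ⟨g1, g2⟩ := hE s hsH t ht has (hsa.trans hat).le
    have g3 : 0 ≤ ∫ σ in Ioo s t, Z σ := by
      apply integral_nonneg_of_ae
      filter_upwards [ae_mem hfull (A := Ioo s t)
        (fun x hx => ⟨(hsub hsH).1.trans hx.1, hx.2.trans (hsub ht).2⟩)
        measurableSet_Ioo] with x hx
      exact nZ x hx.2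
    have g4 := key t ht (hsa.trans hat).le
    linarith
  · obtain ⟨b, hbH, hab, hb0, hbl⟩ := ex_seq hfull (by linarith : -1 ≤ a') ha'
    have hi : IntegrableOn Z (Ioc a' 0) := by
      refine integrableOn_Ioc_of_intervalIntegral_norm_bounded_right
        (I := Real.exp KA * (KY / (a' - a) + KR)) (b := b) (l := atTop) (fun j => ?_) hbl
        (Eventually.of_forall fun j => ?_)
      · rw [integrableOn_Ioc_iff_integrableOn_Ioo]
        exact (hZt (b j) (hbH j) (hab j)).1
      · rw [integral_Ioc_eq_integral_Ioo]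
        refine le_trans (le_of_eq ?_) (hZt (b j) (hbH j) (hab j)).2
        apply integral_congr_ae
        filter_upwards [ae_mem hfull (A := Ioo a' (b j))
          (fun x hx => ⟨(ha.trans_lt haa).trans hx.1, hx.2.trans (hb0 j)⟩)
          measurableSet_Ioo] with x hx
        rw [Real.norm_eq_abs, abs_of_nonneg (nZ x hx.2)]
    refine ⟨hi.mono_set Ioo_subset_Ioc_self, ?_⟩
    have hcont : ContinuousOn (fun x => ∫ τ in a'..x, Z τ) (uIcc a' 0) := by
      apply intervalIntegral.continuousOn_primitive_interval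
      rw [uIcc_of_le ha'.le, integrableOn_Icc_iff_integrableOn_Ioc]
      exact hi
    have h0 : (0 : ℝ) ∈ uIcc a' 0 := right_mem_uIcc
    have hlim : Tendsto (fun j => ∫ τ in a'..b j, Z τ) atTop (𝓝 (∫ τ in a'..0, Z τ)) := by
      have h1 := hcont 0 h0
      refine h1.tendsto.comp (tendsto_nhdsWithin_iff.2 ⟨hbl, Eventually.of_forall fun j => ?_⟩)
      rw [uIcc_of_le ha'.le]
      exact ⟨(hab j).le, (hb0 j).le⟩
    have h2 : ∫ τ in a'..0, Z τ ≤ Real.exp KA * (KY / (a' - a) + KR) := by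
      refine le_of_tendsto hlim (Eventually.of_forall fun j => ?_)
      rw [intervalIntegral.integral_of_le (hab j).le, integral_Ioc_eq_integral_Ioo]
      exact (hZt (b j) (hbH j) (hab j)).2
    rwa [intervalIntegral.integral_of_le ha'.le, integral_Ioc_eq_integral_Ioo] at h2

end

theorem t_gron : Pool.Agent.Y7.AN.S_GRON := by
  intro H hHo hfull hsub a a' KA KY KR Y Z A R ha haa ha' nY nZ nA nR iY iA iR iAY hE hKA hKY hKR
    hKA0 hKY0 hKR0
  exact wgron2 hHo hfull hsub ha haa ha' nY nZ nA nR iY iA iR iAY hE hKA hKY hKR hKA0 hKY0 hKR0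

end Pool.Agent.Y779.AN
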